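import Pool.Agent.Lib.MP_6c0de8_an.Final

/-!
# MP_6c0de8_an: no energy-critical self-similar collapse for the inhomogeneous Euler system

A classical solution of the two-dimensional inhomogeneous incompressible Euler system with bounded
energy, density bounded below, and an isolated possible singular point, which is locally (spirally)
self-similar at that point, is trivial, if the exponent is at most `1/2` or if the density has a
limit at the singular point.
-/

set_option autoImplicit false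

namespace Pool.Agent.Results.MP_6c0de8_an.SelfSimilarCollapse

open MeasureTheory Filter Topology Complex Metric
open Pool.Agent.Lib.MP_6c0de8_an

theorem exists_radius {q : ℂ → Prop} (h : ∀ᶠ y in cocompact ℂ, q y) :
    ∃ s0 : ℝ, ∀ y, s0 ≤ ‖y‖ → q y := by
  rw [← cobounded_eq_cocompact, ← comap_norm_atTop, eventually_comap] at h
  obtain ⟨s0, hs0⟩ := eventually_atTop.mp h
  exact ⟨s0, fun y hy => hs0 _ hy y rfl⟩

theorem result {T0 T r : ℝ} {x0 : ℂ} (hT : T0 < T) (hr : 0 < r) {ρ p : ℝ → ℂ → ℝ} {u : ℝ → ℂ → ℂ}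
    (h : LocalEuler T0 T x0 r ρ p u) {m : ℝ} (hm : 0 < m)
    (hρ : ∀ t ∈ Set.Ioo T0 T, ∀ x ∈ ball x0 r, m ≤ ρ t x) {E : ℝ}
    (hE : ∀ t ∈ Set.Ioo T0 T, ∫ x in ball x0 r, ‖u t x‖ ^ 2 ≤ E) {β : ℂ} (hβ : 0 < β.re)
    {R : ℂ → ℝ} {U : ℂ → ℂ} (hs : SelfSimilar T0 T x0 r ρ u β R U) {M : ℝ}
    (hM : 1 / 2 ≤ β.re → ∀ t ∈ Set.Ioo T0 T, ∀ x, r / 2 ≤ ‖x - x0‖ → ‖x - x0‖ < r →
      ‖fderiv ℝ (u t) x‖ ≤ M ∧ ‖fderiv ℝ (ρ t) x‖ ≤ M ∧ ‖fderiv ℝ (p t) x‖ ≤ M)
    (hlim : 1 / 2 < β.re →
      ∃ ρT : ℝ, Tendsto (fun q : ℝ × ℂ => ρ q.1 q.2) (𝓝[<] T ×ˢ 𝓝 x0) (𝓝 ρT)) :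
    ∃ ρ0 : ℝ, ∃ U0 : ℂ, (β.re < 1 → U0 = 0) ∧
      ∀ t ∈ Set.Ioo T0 T, ∀ x ∈ ball x0 r,
        ρ t x = ρ0 ∧ u t x = ((T - t : ℝ) : ℂ) ^ (β - 1) * U0 := by
  have hR := contDiff_R h hs hT hr hβ
  have hU := contDiff_U h hs hT hr hβ
  obtain ⟨P, hprof, hP⟩ := exists_profile h hs hT hr hβ
    (fun t ht x hx => lt_of_lt_of_le hm (hρ t ht x hx))
  have hRm : ∀ y, m ≤ R y := by
    intro y
    obtain ⟨τ, h1, h2, h3⟩ := exists_small (β := β) hT hr hβ ‖y‖
    rw [(hs.pull h1 h2 h3).1]
    exact hρ _ (mem_of h1 h2) _ (mem_ball_of h3)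
  -- it is enough that the profiles are constant
  suffices hc : (∀ y, R y = R 0) ∧ ∀ y, U y = U 0 by
    refine ⟨R 0, U 0, fun hb => const_zero hs hT hr hβ hb hE hc.2, fun t ht x hx => ?_⟩
    obtain ⟨e1, e2⟩ := hs t ht x hx
    rw [hc.1] at e1
    rw [hc.2] at e2
    exact ⟨e1, e2⟩
  have bnd1 : ∀ {F : Type} [NormedAddCommGroup F] [NormedSpace ℝ F] (L : ℂ →L[ℝ] F), ‖L 1‖ ≤ ‖L‖ := by
    intro F _ _ L
    simpa using L.le_opNorm 1
  have bndI : ∀ {F : Type} [NormedAddCommGroup F] [NormedSpace ℝ F] (L : ℂ →L[ℝ] F), ‖L I‖ ≤ ‖L‖ := by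
    intro F _ _ L
    simpa using L.le_opNorm I
  have hd : ∀ z, HasFDerivAt U (fderiv ℝ U z) z := fun z =>
    (hU.differentiable two_ne_zero z).hasFDerivAt
  have re_d : ∀ z v, fderiv ℝ (fun z => (U z).re) z v = (fderiv ℝ U z v).re := by
    intro z v
    have := (reCLM.hasFDerivAt.comp z (hd z)).fderiv
    simp only [Function.comp_def, reCLM_apply] at this
    rw [this]
    rfl
  have im_d : ∀ z v, fderiv ℝ (fun z => (U z).im) z v = (fderiv ℝ U z v).im := by
    intro z v
    have := (imCLM.hasFDerivAt.comp z (hd z)).fderiv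
    simp only [Function.comp_def, imCLM_apply] at this
    rw [this]
    rfl
  rcases lt_trichotomy β.re (1 / 2) with hb | hb | hb
  · -- subcritical exponent
    have hU0 := U_zero hs hU.continuous hT hr hβ hb hE
    refine ⟨fun y => density_const hR hβ (fun z => ?_) y, fun y => by rw [hU0, hU0]⟩
    have ht := hprof.tr z
    unfold V1 V2 d1 d2 at ht
    rw [clm_eq]
    simp only [smul_eq_mul]
    simp only [hU0 z, zero_re, zero_im, add_zero] at ht
    rw [← ht]
    simp
  · -- critical exponent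
    have hfar := far_eventually h hs hR hU hT hr hβ (hM hb.ge) hP
    obtain ⟨s0, hs0⟩ := exists_radius hfar
    have htm : ∀ θ : ℝ, tm β θ = θ ^ 2 := by
      intro θ
      unfold tm
      rw [hb]
      norm_num
    have hM0 : 0 ≤ M := by
      have hx : ‖x0 + ((r / 2 : ℝ) : ℂ) - x0‖ = r / 2 := by
        rw [add_sub_cancel_left, Complex.norm_real, Real.norm_eq_abs, abs_of_pos (by positivity)]
      have := (hM hb.ge ((T0 + T) / 2) ⟨by linarith, by linarith⟩ (x0 + ((r / 2 : ℝ) : ℂ))
        (by rw [hx]) (by rw [hx]; linarith)).1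
      exact (norm_nonneg _).trans this
    have hdec := decay_of_L2 (C := M * (3 * r / 4) ^ 2) (s0 := s0)
      (hU.differentiable two_ne_zero) (by positivity) (fun y hy => by
        refine (hs0 y hy).1.trans (le_of_eq ?_)
        rw [htm, div_pow]
        ring) (U_L2 hs hU.continuous hT hr hb hE)
    have small : Tendsto (fun y : ℂ => M * (3 * r / 4 / ‖y‖)) (cocompact ℂ) (𝓝 0) := by
      simpa using (theta_tendsto r).const_mul M
    obtain ⟨L, hL⟩ := exists_limit (f := P) (C := M * (3 * r / 4) ^ 3) (s0 := max s0 1)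
      (hprof.hP.differentiable two_ne_zero) (by positivity) (fun y hy => by
        have hy0 : 0 < ‖y‖ := lt_of_lt_of_le one_pos ((le_max_right _ _).trans hy)
        refine (hs0 y ((le_max_left _ _).trans hy)).2.2.trans (le_of_eq ?_)
        rw [htm]
        field_simp)
    have hprof' := hprof.sub_const L
    rw [hb] at hprof'
    have hz : ∀ g : ℂ → ℝ, (∀ z, |g z| ≤ ‖U z‖) →
        Tendsto (fun z => ‖z‖ * g z) (cocompact ℂ) (𝓝 0) := by
      intro g hg
      rw [tendsto_zero_iff_norm_tendsto_zero]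
      refine squeeze_zero (fun z => norm_nonneg _) (fun z => ?_) hdec
      rw [norm_mul, norm_norm, Real.norm_eq_abs]
      exact mul_le_mul_of_nonneg_left (hg z) (norm_nonneg _)
    have htr := half_trivial hprof' hm hRm
      (squeeze_zero_norm' (hfar.mono fun y hy => (bnd1 _).trans hy.2.1) small)
      (squeeze_zero_norm' (hfar.mono fun y hy => (bndI _).trans hy.2.1) small)
      (hz _ fun z => Complex.abs_re_le_norm _) (hz _ fun z => Complex.abs_im_le_norm _)
      (by simpa using hL.sub_const L)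
    refine ⟨fun y => (htr y).1, fun y => ?_⟩
    apply Complex.ext
    · rw [(htr y).2.1, (htr 0).2.1]
    · rw [(htr y).2.2, (htr 0).2.2]
  · -- the density has a limit
    obtain ⟨ρT, hρT⟩ := hlim hb
    have hfar := far_eventually h hs hR hU hT hr hβ (hM hb.le) hP
    have hRlim : Tendsto R (cocompact ℂ) (𝓝 ρT) := by
      have hθ : Tendsto (fun y : ℂ => 1 / ‖y‖ ^ 2) (cocompact ℂ) (𝓝 0) :=
        tendsto_const_nhds.div_atTop
          ((tendsto_pow_atTop two_ne_zero).comp tendsto_norm_cocompact_atTop)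
      have hτ := tm_tendsto hβ hθ
      have hinv : Tendsto (fun y : ℂ => 1 / ‖y‖) (cocompact ℂ) (𝓝 0) :=
        tendsto_const_nhds.div_atTop tendsto_norm_cocompact_atTop
      have hone : ∀ᶠ y : ℂ in cocompact ℂ, 1 ≤ ‖y‖ :=
        tendsto_norm_cocompact_atTop.eventually_ge_atTop 1
      have hnorm : ∀ y : ℂ, 1 ≤ ‖y‖ → ‖Lam β (tm β (1 / ‖y‖ ^ 2))‖ * ‖y‖ = 1 / ‖y‖ := by
        intro y hy
        have hy0 : 0 < ‖y‖ := by linarith
        rw [norm_Lam_tm hβ (by positivity)]
        field_simp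
      have hq : Tendsto (fun y : ℂ => ((T - tm β (1 / ‖y‖ ^ 2),
          x0 + Lam β (tm β (1 / ‖y‖ ^ 2)) * y) : ℝ × ℂ)) (cocompact ℂ) (𝓝[<] T ×ˢ 𝓝 x0) := by
        refine Tendsto.prodMk ?_ ?_
        · rw [tendsto_nhdsWithin_iff]
          refine ⟨by simpa using hτ.const_sub T, ?_⟩
          filter_upwards [hone] with y hy
          have hy0 : 0 < ‖y‖ := by linarith
          have := tm_pos (β := β) (show 0 < 1 / ‖y‖ ^ 2 by positivity)
          exact (show T - tm β (1 / ‖y‖ ^ 2) < T by linarith)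
        · have e : Tendsto (fun y : ℂ => Lam β (tm β (1 / ‖y‖ ^ 2)) * y) (cocompact ℂ) (𝓝 0) := by
            rw [tendsto_zero_iff_norm_tendsto_zero]
            refine hinv.congr' ?_
            filter_upwards [hone] with y hy
            rw [norm_mul, hnorm y hy]
          simpa using e.const_add x0
      refine (hρT.comp hq).congr' ?_
      filter_upwards [hone, hτ.eventually (gt_mem_nhds (sub_pos.mpr hT)),
        hinv.eventually (gt_mem_nhds hr)] with y hy h2 h3
      have hy0 : 0 < ‖y‖ := by linarith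
      exact ((hs.pull (tm_pos (by positivity)) h2 (by rw [hnorm y hy]; exact h3)).1).symm
    have hRc : ∀ z, R z = ρT := by
      intro z
      have h0 := transport_zero (V1 := V1 β.re β.im fun z => (U z).re)
        (V2 := V2 β.re β.im fun z => (U z).im) (g := fun z => R z - ρT) (k := 2 * β.re) (l := 0)
        (contDiff_V1 (hprof.hU1.of_le Pool.Agent.Lib.MP_6c0de8_an.one_le_two')) (contDiff_V2 (hprof.hU2.of_le Pool.Agent.Lib.MP_6c0de8_an.one_le_two'))
        ((hR.of_le Pool.Agent.Lib.MP_6c0de8_an.one_le_two').sub contDiff_const) (by linarith) le_rfl hprof.divV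
        (fun w => by
          have e := (hasD_of_diff (hR.differentiable two_ne_zero w)).sub (hasD_const ρT w)
          rw [e.d1, e.d2, sub_zero, sub_zero, zero_mul, neg_zero]
          exact hprof.tr w)
        (by simpa using hRlim.sub_const ρT) z
      linarith
    have small : Tendsto (fun y : ℂ => M * tm β (3 * r / 4 / ‖y‖)) (cocompact ℂ) (𝓝 0) := by
      simpa using (tm_tendsto hβ (theta_tendsto r)).const_mul M
    have hc := const_density hprof hβ hRc
      (squeeze_zero_norm' (hfar.mono fun y hy => by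
        unfold d1
        rw [re_d]
        exact ((Complex.abs_re_le_norm _).trans (bnd1 _)).trans hy.1) small)
      (squeeze_zero_norm' (hfar.mono fun y hy => by
        unfold d2
        rw [re_d]
        exact ((Complex.abs_re_le_norm _).trans (bndI _)).trans hy.1) small)
      (squeeze_zero_norm' (hfar.mono fun y hy => by
        unfold d1
        rw [im_d]
        exact ((Complex.abs_im_le_norm _).trans (bnd1 _)).trans hy.1) small)
    refine ⟨fun y => by rw [hRc, hRc], fun y => ?_⟩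
    exact Complex.ext (hc y).1 (hc y).2

end Pool.Agent.Results.MP_6c0de8_an.SelfSimilarCollapse
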